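import Pool.Agent.H71SC.Crit
import Pool.Agent.Results.MP_c385f6_ag.EllMonodromyCovers

/-! # Sections at a decomposition group -/

set_option autoImplicit false
set_option linter.all false

open Polynomial FF Pool.Agent.Y157.PS Pool.Agent.H71SC

namespace Pool.Agent.H59.SCG

section main

variable {A k F Ω : Type} [CommRing A] [IsDomain A] [IsDiscreteValuationRing A]
    [Finite (IsLocalRing.ResidueField A)] [Field k] [CharZero k] [Algebra A k] [IsFractionRing A k]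
    [Field F] [Field Ω] [Algebra k F] [Algebra F Ω] [Algebra k Ω] [IsScalarTower k F Ω]
    [IsAlgClosed Ω] [Algebra.IsAlgebraic F Ω]

theorem padicV {ℓ : ℕ} [Fact ℓ.Prime] (V : ValuationSubring (algebraicClosure k Ω))
    (hVA : ∀ a : A, algebraMap k (algebraicClosure k Ω) (algebraMap A k a) ∈ V)
    (hVm : ∀ a ∈ IsLocalRing.maximalIdeal A,
      algebraMap k (algebraicClosure k Ω) (algebraMap A k a) ∈ V.nonunits)
    (hℓ : IsUnit (ℓ : A)) (f : A[X]) (hlc : IsUnit f.leadingCoeff)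
    (hs : (f.map (IsLocalRing.residue A)).Separable) (hdvd : ℓ ∣ f.natDegree)
    (h3 : 3 ≤ f.natDegree)
    (x : F) (hx : Transcendental k x)
    (halg : Algebra.IsAlgebraic (IntermediateField.adjoin k {x}) F)
    (hcov : ∀ z : F, algebraMap F Ω z ∈
      orbi (K := IntermediateField.adjoin (algebraicClosure k Ω) {algebraMap F Ω x}) ℓ k
        (algebraMap F Ω (aeval x (f.map (algebraMap A k)))))
    (hunr : ∀ W : ValuationSubring Ω, (∀ c : k, algebraMap k Ω c ∈ W) →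
      algebraMap F Ω (aeval x (f.map (algebraMap A k))) ∈ W.nonunits →
      ∃ t ∈ geomF k F Ω, t ≠ 0 ∧
        IsU W (t ^ ℓ / algebraMap F Ω (aeval x (f.map (algebraMap A k)))))
    (M : IntermediateField F Ω) (hM : geomPro ℓ k F Ω ≤ M)
    (S : (algebraicClosure k Ω ≃ₐ[k] algebraicClosure k Ω) →* (M ≃ₐ[F] M)) (hcont : Continuous S)
    (hcompat : ∀ σ (c : algebraicClosure k Ω) (z : M), (z : Ω) = (c : Ω) →
      (S σ z : Ω) = (σ c : Ω)) :
    (∀ O : ValuationSubring Ω, (∀ c : algebraicClosure k Ω, (c : Ω) ∈ O ↔ c ∈ V) →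
      (∀ p : (algebraicClosure k Ω)[X], (∀ n, p.coeff n ∈ V) → (∃ n, IsU V (p.coeff n)) →
        IsU O (aeval (algebraMap F Ω x) p)) →
      ∀ σ : algebraicClosure k Ω ≃ₐ[k] algebraicClosure k Ω, Ine V σ →
        ∀ z : M, (z : Ω) ∈ geomPro ℓ k F Ω → (z : Ω) ∈ O →
        ((S σ z - z : M) : Ω) ∈ O.nonunits) ∨
    ∃ W : ValuationSubring M,
      (((∀ c : k, algebraMap F M (algebraMap k F c) ∈ W) ∧
       (∃ e : algebraicClosure k Ω, aeval e (f.map (algebraMap A k)) = 0 ∧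
          (∀ σ : algebraicClosure k Ω ≃ₐ[k] algebraicClosure k Ω, Dec V σ → σ e = e) ∧
          ∃ z' ∈ W.nonunits, (z' : Ω) = algebraMap F Ω x - e) ∧
       (∀ z : M, (z : Ω) ∈ geomPro ℓ k F Ω → z ∈ W →
          ∃ c : algebraicClosure k Ω, ∃ z' ∈ W.nonunits, (z' : Ω) = (z : Ω) - c)) ∧
       ∀ σ : algebraicClosure k Ω ≃ₐ[k] algebraicClosure k Ω, Dec V σ →
         ∀ z : M, (z : Ω) ∈ geomPro ℓ k F Ω → (S σ z ∈ W ↔ z ∈ W)) ∧
      ∀ W' : ValuationSubring M,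
        ((∀ c : k, algebraMap F M (algebraMap k F c) ∈ W') ∧
        algebraMap F M (aeval x (f.map (algebraMap A k))) ∈ W'.nonunits) →
        (∀ σ : algebraicClosure k Ω ≃ₐ[k] algebraicClosure k Ω, Dec V σ →
          ∀ z : M, (z : Ω) ∈ geomPro ℓ k F Ω → (S σ z ∈ W' ↔ z ∈ W')) →
        ∀ z : M, (z : Ω) ∈ geomPro ℓ k F Ω → (z ∈ W' ↔ z ∈ W) := by
  have hX0 : Transcendental k (algebraMap F Ω x) :=
    (transcendental_algebraMap_iff (R := k) (algebraMap F Ω).injective (a := x)).2 hx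
  have hrat := ratF_adj (trans_up hX0)
  haveI hclR : IsAlgClosure (IntermediateField.adjoin (algebraicClosure k Ω) {algebraMap F Ω x}) Ω :=
    closure_R' halg
  obtain ⟨-, -, -, hgeo⟩ := geo2_abs (R := IntermediateField.adjoin (algebraicClosure k Ω)
    {algebraMap F Ω x}) ⟨algebraMap F Ω x, IntermediateField.mem_adjoin_simple_self _ _⟩ hrat V
    hVA hVm hℓ f hlc hs hdvd h3 x rfl hcov hunr
  obtain ⟨T, hTc, hT⟩ := a_ind2 ℓ k F Ω x hx halg M hM _ S hcont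
  have hTcompat : ∀ σ (c : algebraicClosure k Ω) (z : geomPro ℓ k F Ω), (z : Ω) = (c : Ω) →
      (T σ z : Ω) = (σ c : Ω) := by
    intro σ c z hz
    have h1 : (z : Ω) ∈ M := hM z.2
    rw [hT σ ⟨(z : Ω), h1⟩ z rfl]
    exact hcompat σ c _ hz
  rcases hgeo T hTc hTcompat with hL | ⟨W₀, ⟨h1, h2, h3', h4⟩, hun⟩
  · left
    intro O hO1 hO2 σ hσ z hzM hz
    have h5 := hL (O.comap (algebraMap (geomPro ℓ k F Ω) Ω)) (fun c z hz => by
        rw [← hO1 c, ← hz]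
        rfl) (fun p hp hp' z hz => by
        have h6 := hO2 p hp hp'
        rw [← hz] at h6
        exact ⟨fun h => h6.1 (by rw [h]; rfl), h6.2.1, h6.2.2⟩) σ hσ ⟨(z : Ω), hzM⟩ hz
    rw [non_incl] at h5
    have h6 : ((S σ z - z : M) : Ω) = ((T σ ⟨(z : Ω), hzM⟩ - ⟨(z : Ω), hzM⟩ :
        geomPro ℓ k F Ω) : Ω) := by
      have h7 := hT σ z ⟨(z : Ω), hzM⟩ rfl
      change ((S σ z : M) : Ω) - (z : Ω) = ((T σ ⟨(z : Ω), hzM⟩ : geomPro ℓ k F Ω) : Ω) - (z : Ω)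
      rw [h7]
    rw [h6]
    exact h5
  right
  have hnon : ∀ (W : ValuationSubring M) (w : geomPro ℓ k F Ω),
      w ∈ (W.comap ((IntermediateField.inclusion hM : geomPro ℓ k F Ω →ₐ[F] M) :
        geomPro ℓ k F Ω →+* M)).nonunits → (⟨(w : Ω), hM w.2⟩ : M) ∈ W.nonunits := fun W w hw =>
    (non_incl ((IntermediateField.inclusion hM :
        geomPro ℓ k F Ω →ₐ[F] M) : geomPro ℓ k F Ω →+* M) W _).1 hw
  exact lift_thm (geomPro ℓ k F Ω) M hM S T (fun σ => Dec V σ) hT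
    (fun L W => (∀ c : k, algebraMap F L (algebraMap k F c) ∈ W) ∧
       (∃ e : algebraicClosure k Ω, aeval e (f.map (algebraMap A k)) = 0 ∧
          (∀ σ : algebraicClosure k Ω ≃ₐ[k] algebraicClosure k Ω, Dec V σ → σ e = e) ∧
          ∃ z' ∈ W.nonunits, (z' : Ω) = algebraMap F Ω x - e) ∧
       (∀ z : L, (z : Ω) ∈ geomPro ℓ k F Ω → z ∈ W →
          ∃ c : algebraicClosure k Ω, ∃ z' ∈ W.nonunits, (z' : Ω) = (z : Ω) - c))
    (fun L W => (∀ c : k, algebraMap F L (algebraMap k F c) ∈ W) ∧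
      algebraMap F L (aeval x (f.map (algebraMap A k))) ∈ W.nonunits)
    (by
      rintro W ⟨a1, ⟨e, he, hefix, z', hz', hz'e⟩, a3⟩
      refine ⟨a1, ⟨e, he, hefix, _, hnon W z' hz', hz'e⟩, fun z hz hzW => ?_⟩
      obtain ⟨c, w, hw, hwc⟩ := a3 ⟨(z : Ω), hz⟩ hz hzW
      exact ⟨c, _, hnon W w hw, hwc⟩)
    (by
      rintro W ⟨a1, a2⟩
      exact ⟨a1, (non_incl _ _ _).2 a2⟩)
    ⟨W₀, ⟨⟨h1, h3', fun z _ hz => h2 z hz⟩, fun σ hσ z => h4 σ hσ z⟩, fun W' hW' hst =>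
      hun W' hW'.1 hW'.2 fun σ hσ z => hst σ hσ z⟩

theorem gaussV {ℓ : ℕ} [Fact ℓ.Prime] (V : ValuationSubring (algebraicClosure k Ω))
    (hVA : ∀ a : A, algebraMap k (algebraicClosure k Ω) (algebraMap A k a) ∈ V)
    (hVm : ∀ a ∈ IsLocalRing.maximalIdeal A,
      algebraMap k (algebraicClosure k Ω) (algebraMap A k a) ∈ V.nonunits)
    (hℓ : IsUnit (ℓ : A)) (f : A[X]) (hlc : IsUnit f.leadingCoeff)
    (hs : (f.map (IsLocalRing.residue A)).Separable) (hdvd : ℓ ∣ f.natDegree)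
    (h3 : 3 ≤ f.natDegree)
    (x : F) (hx : Transcendental k x)
    (halg : Algebra.IsAlgebraic (IntermediateField.adjoin k {x}) F)
    (hcov : ∀ z : F, algebraMap F Ω z ∈
      orbi (K := IntermediateField.adjoin (algebraicClosure k Ω) {algebraMap F Ω x}) ℓ k
        (algebraMap F Ω (aeval x (f.map (algebraMap A k)))))
    (hunr : ∀ W : ValuationSubring Ω, (∀ c : k, algebraMap k Ω c ∈ W) →
      algebraMap F Ω (aeval x (f.map (algebraMap A k))) ∈ W.nonunits →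
      ∃ t ∈ geomF k F Ω, t ≠ 0 ∧
        IsU W (t ^ ℓ / algebraMap F Ω (aeval x (f.map (algebraMap A k))))) :
    (∃ O : ValuationSubring Ω, (∀ c : algebraicClosure k Ω, (c : Ω) ∈ O ↔ c ∈ V) ∧
      ∀ p : (algebraicClosure k Ω)[X], (∀ n, p.coeff n ∈ V) → (∃ n, IsU V (p.coeff n)) →
        IsU O (aeval (algebraMap F Ω x) p)) ∧
    (∀ O O' : ValuationSubring Ω, (∀ c : algebraicClosure k Ω, (c : Ω) ∈ O ↔ c ∈ V) →
      (∀ p : (algebraicClosure k Ω)[X], (∀ n, p.coeff n ∈ V) → (∃ n, IsU V (p.coeff n)) →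
        IsU O (aeval (algebraMap F Ω x) p)) →
      (∀ c : algebraicClosure k Ω, (c : Ω) ∈ O' ↔ c ∈ V) →
      (∀ p : (algebraicClosure k Ω)[X], (∀ n, p.coeff n ∈ V) → (∃ n, IsU V (p.coeff n)) →
        IsU O' (aeval (algebraMap F Ω x) p)) →
      ∀ z ∈ geomPro ℓ k F Ω, z ∈ O ↔ z ∈ O') := by
  have hX0 : Transcendental k (algebraMap F Ω x) :=
    (transcendental_algebraMap_iff (R := k) (algebraMap F Ω).injective (a := x)).2 hx
  have hrat := ratF_adj (trans_up hX0)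
  haveI hclR : IsAlgClosure (IntermediateField.adjoin (algebraicClosure k Ω) {algebraMap F Ω x}) Ω :=
    closure_R' halg
  obtain ⟨-, h1, h2, -⟩ := geo2_abs (R := IntermediateField.adjoin (algebraicClosure k Ω)
    {algebraMap F Ω x}) ⟨algebraMap F Ω x, IntermediateField.mem_adjoin_simple_self _ _⟩ hrat V
    hVA hVm hℓ f hlc hs hdvd h3 x rfl hcov hunr
  exact ⟨h1, h2⟩

/-- residue classes of fixed elements -/
theorem resV {M₀ : IntermediateField F Ω} (V : ValuationSubring (algebraicClosure k Ω))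
    (M : IntermediateField F Ω) (hM : M₀ ≤ M) (hκ : ∀ c : algebraicClosure k Ω, (c : Ω) ∈ M₀)
    (S : (algebraicClosure k Ω ≃ₐ[k] algebraicClosure k Ω) →* (M ≃ₐ[F] M))
    (hcompat : ∀ σ (c : algebraicClosure k Ω) (z : M), (z : Ω) = (c : Ω) →
      (S σ z : Ω) = (σ c : Ω)) (W : ValuationSubring M)
    (h1 : ∀ c : k, algebraMap F M (algebraMap k F c) ∈ W)
    (σ : algebraicClosure k Ω ≃ₐ[k] algebraicClosure k Ω)
    (h4 : ∀ z : M, (z : Ω) ∈ M₀ → (S σ z ∈ W ↔ z ∈ W)) (z : M) (hz : (z : Ω) ∈ M₀)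
    (hSz : S σ z = z) (c : algebraicClosure k Ω) (z' : M) (hz' : z' ∈ W.nonunits)
    (hzc : (z' : Ω) = (z : Ω) - c) : σ c = c := by
  have hz'M : (z' : Ω) ∈ M₀ := by
    rw [hzc]
    exact sub_mem hz (hκ c)
  have h5 : S σ z' ∈ W.nonunits := by
    obtain ⟨h6, h7⟩ := nonunits_iff.1 hz'
    refine nonunits_iff.2 ⟨(h4 z' hz'M).2 h6, ?_⟩
    rcases h7 with h7 | h7
    · left
      rw [h7, map_zero]
    · right
      intro h8
      apply h7
      have h9 : ((z'⁻¹ : M) : Ω) ∈ M₀ := inv_mem hz'M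
      rw [← h4 _ h9, map_inv₀]
      exact h8
  have h2 := non_sub hz' h5
  set cN : M := ⟨(c : Ω), hM (hκ c)⟩ with hcN
  have h6 : z' = z - cN := Subtype.ext hzc
  have h7 : ((z' - S σ z' : M) : Ω) = ((σ c - c : algebraicClosure k Ω) : Ω) := by
    have h8 : S σ z' = z - S σ cN := by
      conv_lhs => rw [h6]
      rw [map_sub, hSz]
    rw [h8]
    change (z' : Ω) - ((z : Ω) - (S σ cN : Ω)) = (σ c : Ω) - (c : Ω)
    rw [hcompat σ c cN rfl, hzc]
    ring
  exact sub_eq_zero.1 (const_non_N M W h1 _ _ h7 h2)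

/-- the criterion for ramified sections, at `V` -/
theorem critV {ℓ : ℕ} [Fact ℓ.Prime] (V : ValuationSubring (algebraicClosure k Ω))
    (hVA : ∀ a : A, algebraMap k (algebraicClosure k Ω) (algebraMap A k a) ∈ V)
    (hVm' : ∀ a ∈ IsLocalRing.maximalIdeal A,
      algebraMap k (algebraicClosure k Ω) (algebraMap A k a) ∈ V.nonunits)
    (hℓ : IsUnit (ℓ : A)) (X : Ω) (N M₀ : IntermediateField F Ω)
    (hM₀N : M₀ ≤ N) (hκ : ∀ c : algebraicClosure k Ω, (c : Ω) ∈ M₀) (O : ValuationSubring Ω)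
    (hmemO : ∀ c : algebraicClosure k Ω, (c : Ω) ∈ O ↔ c ∈ V)
    (hOp : ∀ p : (algebraicClosure k Ω)[X], (∀ n, p.coeff n ∈ V) → (∃ n, IsU V (p.coeff n)) →
        IsU O (aeval X p))
    (S : (algebraicClosure k Ω ≃ₐ[k] algebraicClosure k Ω) →* (N ≃ₐ[F] N))
    (hcompat : ∀ σ (c : algebraicClosure k Ω) (z : N), (z : Ω) = (c : Ω) →
      (S σ z : Ω) = (σ c : Ω))
    (hL : ∀ σ : algebraicClosure k Ω ≃ₐ[k] algebraicClosure k Ω, Ine V σ →
      ∀ z : N, (z : Ω) ∈ M₀ → (z : Ω) ∈ O → ((S σ z - z : N) : Ω) ∈ O.nonunits)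
    (ϖ : A) (hϖ : Irreducible ϖ) (d : k) (m : ℤ) (hm : ¬ (ℓ : ℤ) ∣ m)
    (t : A) (ht : IsUnit t) (hd : d = algebraMap A k t * algebraMap A k ϖ ^ m)
    (g : A[X]) (hg : IsUnit g.leadingCoeff) (y : N) (hyM : (y : Ω) ∈ M₀)
    (hfix : ∀ σ, S σ y = y)
    (hy : algebraMap k Ω d * (y : Ω) ^ ℓ = aeval X (g.map (algebraMap A k))) : False := by
  have hp := (Fact.out : ℓ.Prime).pos
  have hac : IsAlgClosure k (algebraicClosure k Ω) := inferInstance
  have hkb : IsAlgClosed (algebraicClosure k Ω) := hac.1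
  letI : Algebra A (algebraicClosure k Ω) :=
    ((algebraMap k (algebraicClosure k Ω)).comp (algebraMap A k)).toAlgebra
  haveI hst : IsScalarTower A k (algebraicClosure k Ω) :=
    IsScalarTower.of_algebraMap_eq (fun _ => rfl)
  have hVa : ∀ a : A, algebraMap A (algebraicClosure k Ω) a ∈ V := hVA
  have hVm : ∀ a ∈ IsLocalRing.maximalIdeal A, algebraMap A (algebraicClosure k Ω) a ∈
      V.nonunits := hVm'
  have hnonO := gaussO_non hmemO
  have hunit : ∀ b : A, IsUnit b → IsU V (algebraMap A (algebraicClosure k Ω) b) := by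
    rintro b ⟨b, rfl⟩
    refine ⟨(b.isUnit.map (algebraMap A (algebraicClosure k Ω))).ne_zero, hVa _, ?_⟩
    have h1 : (algebraMap A (algebraicClosure k Ω) (b : A))⁻¹ =
        algebraMap A (algebraicClosure k Ω) ((b⁻¹ : Aˣ) : A) := by
      refine inv_eq_of_mul_eq_one_right ?_
      rw [← map_mul, Units.mul_inv, map_one]
    rw [h1]
    exact hVa _
  have hAk : Function.Injective (algebraMap A k) := IsFractionRing.injective A k
  have hϖ0 : algebraMap A (algebraicClosure k Ω) ϖ ≠ 0 := by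
    rw [IsScalarTower.algebraMap_apply A k]
    refine (_root_.map_ne_zero _).2 ?_
    rw [Ne, map_eq_zero_iff _ hAk]
    exact hϖ.ne_zero
  obtain ⟨δ, hδ⟩ : ∃ δ : algebraicClosure k Ω, δ ^ ℓ = algebraMap k (algebraicClosure k Ω) d :=
    IsAlgClosed.exists_pow_nat_eq _ hp
  have hBase : Base ℓ A k (algebraicClosure k Ω) V ϖ δ m := by
    refine ⟨hℓ, hVa, hVm, hϖ, hm, ⟨_, hδ⟩, ?_⟩
    have h1 : δ ^ ℓ / algebraMap A (algebraicClosure k Ω) ϖ ^ m =
        algebraMap A (algebraicClosure k Ω) t := by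
      have h5 : algebraMap A (algebraicClosure k Ω) ϖ ^ m ≠ 0 := zpow_ne_zero _ hϖ0
      rw [hδ, hd, map_mul, map_zpow₀, ← IsScalarTower.algebraMap_apply,
        ← IsScalarTower.algebraMap_apply]
      field_simp
    rw [h1]
    exact hunit t ht
  have hδ0 : δ ≠ 0 := hBase.δ0
  have hgU : IsU O (aeval X (g.map (algebraMap A k))) := by
    have h1 := hOp (g.map (algebraMap A (algebraicClosure k Ω)))
      (fun n => by rw [coeff_map]; exact hVa _)
      ⟨g.natDegree, by rw [coeff_map]; exact hunit _ hg⟩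
    have h2 : aeval X (g.map (algebraMap A (algebraicClosure k Ω))) =
        aeval X (g.map (algebraMap A k)) := by
      rw [aeval_def, aeval_def, eval₂_map, eval₂_map, IsScalarTower.algebraMap_eq A k
        (algebraicClosure k Ω), ← RingHom.comp_assoc,
        ← IsScalarTower.algebraMap_eq k (algebraicClosure k Ω) Ω]
    rwa [h2] at h1
  let δN : N := ⟨(δ : Ω), hM₀N (hκ δ)⟩
  have hzM : ((δN * y : N) : Ω) ∈ M₀ := mul_mem (hκ δ) hyM
  have hzl : ((δN * y : N) : Ω) ^ ℓ = aeval X (g.map (algebraMap A k)) := by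
    have h1 : ((δN * y : N) : Ω) = (δ : Ω) * (y : Ω) := rfl
    have h2 : (δ : Ω) ^ ℓ = algebraMap k Ω d := by
      have h3 := congrArg (algebraMap (algebraicClosure k Ω) Ω) hδ
      rw [map_pow, ← IsScalarTower.algebraMap_apply] at h3
      exact h3
    rw [h1, mul_pow, h2, hy]
  have hzU : IsU O ((δN * y : N) : Ω) := isU_of_pow hp (by rw [hzl]; exact hgU)
  obtain ⟨-, τ, hτ, hτδ, -, -⟩ := a_tau ℓ A k (algebraicClosure k Ω) V ϖ δ m hBase
  have h1 := hL τ hτ (δN * y) hzM hzU.2.1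
  have h2 : (S τ (δN * y) : Ω) = ((τ δ : algebraicClosure k Ω) : Ω) * (y : Ω) := by
    rw [map_mul, hfix]
    change (S τ δN : Ω) * (y : Ω) = _
    rw [hcompat τ δ δN rfl]
  have h3 : ((S τ (δN * y) - δN * y : N) : Ω) = ((δN * y : N) : Ω) *
      ((τ δ / δ - 1 : algebraicClosure k Ω) : Ω) := by
    have h4 : ((S τ (δN * y) - δN * y : N) : Ω) = (S τ (δN * y) : Ω) - (δ : Ω) * (y : Ω) := rfl
    have h5 : ((δN * y : N) : Ω) = (δ : Ω) * (y : Ω) := rfl
    have h6 : ((τ δ / δ - 1 : algebraicClosure k Ω) : Ω) = (τ δ : Ω) / (δ : Ω) - 1 := rfl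
    have h7 : (δ : Ω) ≠ 0 := fun h => hδ0 (Subtype.ext h)
    rw [h4, h2, h5, h6]
    field_simp
  rw [h3] at h1
  have h4 := non_of_isU_mul hzU h1
  rw [hnonO] at h4
  have h5 : τ δ / δ = 1 := Pool.Agent.Y748.PS.rou_eq_one (m := ℓ) hBase.isU (hBase.ratio τ) h4
  rw [div_eq_one_iff_eq hδ0] at h5
  exact hτδ h5

end main

end Pool.Agent.H59.SCG
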